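import Pool.Agent.Y122.TQ.Defs

set_option autoImplicit false

/-! TQ-MSP and TQ-MAIN: mean squares of short polynomials over the family. -/

namespace Pool.Agent.Y960.TQ

open Finset
open Pool.Agent.H306R2 (dv dA lc dv_nonneg dv_mono dv_sq_le dA_mul dA_apply lc_zero lc_succ lc_nonneg
  dvJ_summable)
open Pool.Agent.H306R2.RZ (js nu)
open Pool.Agent.H306R2.RG
open Pool.Agent.Y746.OA (tr tr_apply tr_abs_le dv_abs_le l1_poly dvJ_sum rpow_neg_le1)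
open Pool.Agent.Y122.TQ

noncomputable section

/-! ### divisor functions -/

lemma lc_submul {κ : ℝ} (hκ : 1 ≤ κ) (m n : ℕ) : lc κ (m + n) ≤ lc κ m * lc κ n := by
  induction n with
  | zero => simp [lc_zero]
  | succ n ih =>
    rw [← add_assoc, lc_succ, lc_succ]
    have h1 : (κ + (m + n : ℕ)) / (((m + n : ℕ) : ℝ) + 1) ≤ (κ + n) / ((n : ℝ) + 1) := by
      rw [div_le_div_iff₀ (by positivity) (by positivity)]
      push_cast
      have : 0 ≤ (m : ℝ) * (κ - 1) := mul_nonneg (Nat.cast_nonneg m) (by linarith)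
      nlinarith
    have h0 : 0 ≤ lc κ m * lc κ n := mul_nonneg (lc_nonneg (by linarith) _) (lc_nonneg (by linarith) _)
    calc lc κ (m + n) * ((κ + (m + n : ℕ)) / (((m + n : ℕ) : ℝ) + 1))
        ≤ (lc κ m * lc κ n) * ((κ + n) / ((n : ℝ) + 1)) :=
          mul_le_mul ih h1 (by positivity) h0
      _ = _ := by ring

lemma dv_eq {κ : ℝ} {n : ℕ} (hn : n ≠ 0) : dv κ n = ∏ p ∈ n.primeFactors, lc κ (n.factorization p) := by
  unfold dv
  rw [if_neg hn]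
  rfl

lemma dv_eq_of_sub {κ : ℝ} {n : ℕ} (hn : n ≠ 0) {S : Finset ℕ} (hS : n.primeFactors ⊆ S) :
    dv κ n = ∏ p ∈ S, lc κ (n.factorization p) := by
  rw [dv_eq hn]
  refine prod_subset hS fun p _ hp => ?_
  have : n.factorization p = 0 := by
    rwa [← Finsupp.notMem_support_iff]
  rw [this, lc_zero]

lemma dv_submul {κ : ℝ} (hκ : 1 ≤ κ) (a b : ℕ) : dv κ (a * b) ≤ dv κ a * dv κ b := by
  have h0 : 0 ≤ κ := by linarith
  rcases Nat.eq_zero_or_pos a with ha | ha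
  · subst ha; simp [dv]
  rcases Nat.eq_zero_or_pos b with hb | hb
  · subst hb; simp [dv]
  have hab : a * b ≠ 0 := by positivity
  rw [dv_eq hab, dv_eq_of_sub ha.ne' (S := (a * b).primeFactors)
      (Nat.primeFactors_mono (dvd_mul_right a b) hab),
    dv_eq_of_sub hb.ne' (S := (a * b).primeFactors)
      (Nat.primeFactors_mono (dvd_mul_left b a) hab), ← prod_mul_distrib]
  refine prod_le_prod (fun p _ => lc_nonneg h0 _) fun p _ => ?_
  rw [Nat.factorization_mul ha.ne' hb.ne', Finsupp.add_apply]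
  exact lc_submul hκ _ _

/-- the exponent -/
def JJ (K : ℕ) : ℕ := (2 * K + 1) ^ 2

lemma dv_square (K l : ℕ) : dv (2 * K) (l ^ 2) ≤ dv (JJ K) l := by
  have h1 : dv (2 * K) (l ^ 2) ≤ dv ((2 * K + 1 : ℕ) : ℝ) (l ^ 2) := by
    refine dv_mono (by positivity) ?_ _
    push_cast
    linarith
  have h2 := dv_submul (κ := ((2 * K + 1 : ℕ) : ℝ)) (by push_cast; linarith [(Nat.cast_nonneg K : (0:ℝ) ≤ K)]) l l
  have h3 := dv_sq_le (κ := ((2 * K + 1 : ℕ) : ℝ)) (Nat.cast_nonneg _) l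
  rw [← sq] at h2
  rw [← sq] at h2
  refine h1.trans (h2.trans (h3.trans (le_of_eq ?_)))
  unfold JJ
  push_cast
  rfl

/-! ### the weights -/

lemma nu_nonneg (n : ℕ) : 0 ≤ nu n := prod_nonneg fun _ _ => by positivity

lemma nu_le_one (n : ℕ) : nu n ≤ 1 := by
  refine prod_le_one (fun _ _ => by positivity) fun p _ => ?_
  rw [div_le_one (by positivity)]
  linarith

lemma nu_mul_self (r : ℕ) : nu (r * r) = nu r := by
  unfold nu
  rw [← sq, Nat.primeFactors_pow r two_ne_zero]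

/-- the weight of `l` -/
def FF (δ : ℝ) (l : ℕ) : ℝ := if Odd l then nu l * (l : ℝ) ^ (-(1 + 2 * δ)) else 0

lemma FF_nonneg (δ : ℝ) (l : ℕ) : 0 ≤ FF δ l := by
  unfold FF
  split_ifs
  · exact mul_nonneg (nu_nonneg l) (by positivity)
  · exact le_rfl

lemma FF_le (δ : ℝ) (l : ℕ) : FF δ l ≤ (l : ℝ) ^ (-(1 + 2 * δ)) := by
  unfold FF
  split_ifs
  · exact mul_le_of_le_one_left (by positivity) (nu_le_one l)
  · positivity

lemma jo_mul (φ : FD) (d n m : ℕ) : jo φ d n * jo φ d m = jo φ d (n * m) := by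
  unfold jo
  by_cases hn : Odd n
  · by_cases hm : Odd m
    · rw [if_pos hn, if_pos hm, if_pos (hn.mul hm)]
      unfold js
      rw [jacobiSym.mul_right' _ hn.pos.ne' hm.pos.ne']
      push_cast
      rfl
    · rw [if_neg hm, mul_zero, if_neg (fun h => hm (Nat.odd_mul.1 h).2)]
  · rw [if_neg hn, zero_mul, if_neg (fun h => hn (Nat.odd_mul.1 h).1)]

/-- the weight of a pair -/
def ww (δ : ℝ) (p : ℕ × ℕ) : ℝ := (p.1 : ℝ) ^ (-(1 / 2 + δ)) * (p.2 : ℝ) ^ (-(1 / 2 + δ))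

lemma ww_sq (δ : ℝ) (p : ℕ × ℕ) (h : IsSquare (p.1 * p.2)) :
    ww δ p = ((Nat.sqrt (p.1 * p.2) : ℕ) : ℝ) ^ (-(1 + 2 * δ)) := by
  obtain ⟨r, hr⟩ := h
  unfold ww
  rw [hr, Nat.sqrt_eq, ← Real.mul_rpow (Nat.cast_nonneg _) (Nat.cast_nonneg _)]
  have : (p.1 : ℝ) * p.2 = (r : ℝ) ^ (2 : ℝ) := by
    rw [show (2 : ℝ) = ((2 : ℕ) : ℝ) by norm_num, Real.rpow_natCast, sq]
    exact_mod_cast hr
  rw [this, ← Real.rpow_mul (Nat.cast_nonneg r)]
  congr 1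
  ring

lemma pair_weight (δ : ℝ) (p : ℕ × ℕ) :
    ww δ p * (if Odd (p.1 * p.2) then om (p.1 * p.2) else 0) =
      if IsSquare (p.1 * p.2) then FF δ (Nat.sqrt (p.1 * p.2)) else 0 := by
  by_cases hs : IsSquare (p.1 * p.2)
  · rw [if_pos hs, ww_sq δ p hs]
    obtain ⟨r, hr⟩ := hs
    unfold om FF
    rw [hr, Nat.sqrt_eq, if_pos (show IsSquare (r * r) from ⟨r, rfl⟩), nu_mul_self]
    have : Odd (r * r) ↔ Odd r := by rw [Nat.odd_mul, and_self]
    by_cases ho : Odd r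
    · rw [if_pos (this.2 ho), if_pos ho, mul_comm]
    · rw [if_neg (fun h => ho (this.1 h)), if_neg ho, mul_zero]
  · rw [if_neg hs]
    unfold om
    rw [if_neg hs, ite_self, mul_zero]

/-! ### pairs with square product -/

lemma fiber (G : ℕ × ℕ → ℝ) (F : ℕ → ℝ) (N : ℕ) :
    ∑ p ∈ Icc 1 N ×ˢ Icc 1 N, G p * (if IsSquare (p.1 * p.2) then F (Nat.sqrt (p.1 * p.2)) else 0) =
      ∑ l ∈ Icc 1 N, (∑ x ∈ ((l ^ 2).divisorsAntidiagonal).filter (fun x => x.1 ≤ N ∧ x.2 ≤ N), G x) *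
        F l := by
  classical
  have h0 : ∑ p ∈ Icc 1 N ×ˢ Icc 1 N, G p * (if IsSquare (p.1 * p.2) then F (Nat.sqrt (p.1 * p.2)) else 0) =
      ∑ p ∈ (Icc 1 N ×ˢ Icc 1 N).filter (fun p => IsSquare (p.1 * p.2)),
        G p * F (Nat.sqrt (p.1 * p.2)) := by
    rw [sum_filter]
    refine sum_congr rfl fun p _ => ?_
    split_ifs
    · rfl
    · rw [mul_zero]
  have hmaps : ∀ p ∈ (Icc 1 N ×ˢ Icc 1 N).filter (fun p => IsSquare (p.1 * p.2)),
      Nat.sqrt (p.1 * p.2) ∈ Icc 1 N := by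
    intro p hp
    rw [mem_filter, mem_product, mem_Icc, mem_Icc] at hp
    rw [mem_Icc]
    constructor
    · rw [Nat.le_sqrt]
      exact Nat.mul_le_mul hp.1.1.1 hp.1.2.1
    · have : Nat.sqrt (p.1 * p.2) ≤ Nat.sqrt (N * N) :=
        Nat.sqrt_le_sqrt (Nat.mul_le_mul hp.1.1.2 hp.1.2.2)
      rwa [Nat.sqrt_eq] at this
  rw [h0, ← sum_fiberwise_of_maps_to hmaps]
  refine sum_congr rfl fun l hl => ?_
  rw [mem_Icc] at hl
  rw [sum_mul]
  have hset : ((Icc 1 N ×ˢ Icc 1 N).filter (fun p => IsSquare (p.1 * p.2))).filter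
      (fun p => Nat.sqrt (p.1 * p.2) = l) =
      ((l ^ 2).divisorsAntidiagonal).filter (fun x => x.1 ≤ N ∧ x.2 ≤ N) := by
    ext p
    rw [mem_filter, mem_filter, mem_product, mem_Icc, mem_Icc, mem_filter,
      Nat.mem_divisorsAntidiagonal]
    constructor
    · rintro ⟨⟨⟨⟨h1, h2⟩, h3, h4⟩, r, hr⟩, h5⟩
      rw [hr, Nat.sqrt_eq] at h5
      subst h5
      exact ⟨⟨by rw [hr, sq], pow_ne_zero 2 (by omega)⟩, h2, h4⟩
    · rintro ⟨⟨h1, h2⟩, h3, h4⟩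
      have h5 : p.1 * p.2 ≠ 0 := by rw [h1]; exact h2
      have h6 : p.1 ≠ 0 := left_ne_zero_of_mul h5
      have h7 : p.2 ≠ 0 := right_ne_zero_of_mul h5
      refine ⟨⟨⟨⟨by omega, h3⟩, by omega, h4⟩, l, by rw [h1, sq]⟩, ?_⟩
      rw [h1, sq, Nat.sqrt_eq]
  rw [hset]
  refine sum_congr rfl fun x hx => ?_
  rw [mem_filter, Nat.mem_divisorsAntidiagonal] at hx
  rw [hx.1.1, sq, Nat.sqrt_eq]

/-! ### expansion of the mean square -/

lemma expand (φ : FD) {C : ℝ} (hC : 0 < C) (hO : ∀ Y k : ℕ, 1 ≤ Y → Odd k →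
    |∑ d ∈ Om φ Y, jo φ d k - dens φ * Y * om k| ≤ C * (Y : ℝ) ^ (3 / 4 : ℝ) * k)
    (g : ℕ → ℝ) (M Y : ℕ) (hY : 1 ≤ Y) {δ : ℝ} (hδ : 0 < δ) :
    |∑ d ∈ Om φ Y, Qo φ g M δ d ^ 2 - dens φ * Y *
      ∑ p ∈ Icc 1 M ×ˢ Icc 1 M, g p.1 * g p.2 *
        (if IsSquare (p.1 * p.2) then FF δ (Nat.sqrt (p.1 * p.2)) else 0)| ≤
      C * (Y : ℝ) ^ (3 / 4 : ℝ) * (M * ∑ n ∈ Icc 1 M, |g n|) ^ 2 := by
  classical
  have h1 : ∑ d ∈ Om φ Y, Qo φ g M δ d ^ 2 = ∑ p ∈ Icc 1 M ×ˢ Icc 1 M,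
      g p.1 * g p.2 * ww δ p * ∑ d ∈ Om φ Y, jo φ d (p.1 * p.2) := by
    have h2 : ∀ d, Qo φ g M δ d ^ 2 = ∑ p ∈ Icc 1 M ×ˢ Icc 1 M,
        g p.1 * g p.2 * ww δ p * jo φ d (p.1 * p.2) := by
      intro d
      unfold Qo
      rw [sq, sum_mul_sum, ← sum_product']
      refine sum_congr rfl fun p _ => ?_
      rw [← jo_mul]
      unfold ww
      ring
    simp_rw [h2]
    rw [sum_comm]
    refine sum_congr rfl fun p _ => ?_
    rw [mul_sum]
  have h3 : dens φ * Y * ∑ p ∈ Icc 1 M ×ˢ Icc 1 M, g p.1 * g p.2 *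
        (if IsSquare (p.1 * p.2) then FF δ (Nat.sqrt (p.1 * p.2)) else 0) =
      ∑ p ∈ Icc 1 M ×ˢ Icc 1 M, g p.1 * g p.2 * ww δ p *
        (dens φ * Y * (if Odd (p.1 * p.2) then om (p.1 * p.2) else 0)) := by
    rw [mul_sum]
    refine sum_congr rfl fun p _ => ?_
    rw [← pair_weight]
    ring
  rw [h1, h3, ← sum_sub_distrib]
  refine (abs_sum_le_sum_abs _ _).trans ?_
  have h4 : ∀ p ∈ Icc 1 M ×ˢ Icc 1 M,
      |g p.1 * g p.2 * ww δ p * ∑ d ∈ Om φ Y, jo φ d (p.1 * p.2) - g p.1 * g p.2 * ww δ p *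
        (dens φ * Y * (if Odd (p.1 * p.2) then om (p.1 * p.2) else 0))| ≤
      C * (Y : ℝ) ^ (3 / 4 : ℝ) * ((M * |g p.1|) * (M * |g p.2|)) := by
    intro p hp
    rw [mem_product, mem_Icc, mem_Icc] at hp
    rw [← mul_sub, abs_mul, abs_mul, abs_mul]
    have h5 : |ww δ p| ≤ 1 := by
      unfold ww
      rw [abs_of_nonneg (by positivity)]
      exact mul_le_one₀ (rpow_neg_le1 hp.1.1 (by linarith)) (by positivity)
        (rpow_neg_le1 hp.2.1 (by linarith))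
    have h6 : |∑ d ∈ Om φ Y, jo φ d (p.1 * p.2) -
        dens φ * Y * (if Odd (p.1 * p.2) then om (p.1 * p.2) else 0)| ≤
        C * (Y : ℝ) ^ (3 / 4 : ℝ) * (M * M) := by
      have h7 : ((p.1 * p.2 : ℕ) : ℝ) ≤ M * M := by
        exact_mod_cast Nat.mul_le_mul hp.1.2 hp.2.2
      by_cases ho : Odd (p.1 * p.2)
      · rw [if_pos ho]
        exact (hO Y _ hY ho).trans (mul_le_mul_of_nonneg_left h7 (by positivity))
      · rw [if_neg ho, mul_zero, sub_zero]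
        have : ∑ d ∈ Om φ Y, jo φ d (p.1 * p.2) = 0 :=
          sum_eq_zero fun d _ => by unfold jo; rw [if_neg ho]
        rw [this, abs_zero]
        positivity
    calc |g p.1| * |g p.2| * |ww δ p| * |∑ d ∈ Om φ Y, jo φ d (p.1 * p.2) -
        dens φ * Y * (if Odd (p.1 * p.2) then om (p.1 * p.2) else 0)| ≤
        |g p.1| * |g p.2| * 1 * (C * (Y : ℝ) ^ (3 / 4 : ℝ) * (M * M)) := by gcongr
      _ = _ := by ring
  refine (sum_le_sum h4).trans (le_of_eq ?_)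
  rw [← mul_sum, sq, mul_sum (Icc 1 M) (fun n => |g n|) (M : ℝ), sum_mul_sum, ← sum_product']

lemma dens_bounds {φ : FD} (h : Fam φ) : 0 ≤ dens φ ∧ dens φ ≤ 1 := by
  have hδ : 0 ≤ φ.δ ∧ φ.δ ≤ 1 := by
    obtain ⟨ε, -, h | h | h | h⟩ := h <;> subst h <;> norm_num [F8, F4, F1]
  have hpi : 0 ≤ 8 / Real.pi ^ 2 ∧ 8 / Real.pi ^ 2 ≤ 1 := by
    refine ⟨by positivity, ?_⟩
    rw [div_le_one (by positivity)]
    nlinarith [Real.pi_gt_three]
  unfold Pool.Agent.Y122.TQ.dens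
  exact ⟨mul_nonneg hδ.1 hpi.1, mul_le_one₀ hδ.2 hpi.1 hpi.2⟩

/-- sums over the divisors of the squares -/
lemma div_sum_le {K : ℕ} {G : ℕ × ℕ → ℝ} (hG : ∀ x, G x ≤ dv K x.1 * dv K x.2)
    (l : ℕ) (P : ℕ × ℕ → Prop) [DecidablePred P] :
    ∑ x ∈ ((l ^ 2).divisorsAntidiagonal).filter P, G x ≤ dv (JJ K) l := by
  have h1 : ∑ x ∈ (l ^ 2).divisorsAntidiagonal, dv K x.1 * dv K x.2 = dv (2 * K) (l ^ 2) := by
    have h2 := congrArg (fun A : ArithmeticFunction ℝ => A (l ^ 2)) (dA_mul (K : ℝ) K)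
    simp only [ArithmeticFunction.mul_apply, dA_apply] at h2
    rw [h2, two_mul]
  refine (sum_le_sum fun x _ => hG x).trans ?_
  refine (sum_le_sum_of_subset_of_nonneg (filter_subset _ _) fun x _ _ =>
    mul_nonneg (dv_nonneg (Nat.cast_nonneg K) _) (dv_nonneg (Nat.cast_nonneg K) _)).trans ?_
  rw [h1]
  exact dv_square K l

/-- the weights at `l ≥ R` -/
lemma FF_tail {δ : ℝ} (hδ : 0 < δ) {l : ℕ} {R : ℝ} (hR : 0 < R) (hl : R ≤ l) :
    FF δ l ≤ R ^ (-δ) * (l : ℝ) ^ (-1 - δ) := by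
  have hl0 : (0 : ℝ) < l := lt_of_lt_of_le hR hl
  refine (FF_le δ l).trans ?_
  have e : (l : ℝ) ^ (-(1 + 2 * δ)) = (l : ℝ) ^ (-δ) * (l : ℝ) ^ (-1 - δ) := by
    rw [← Real.rpow_add hl0]
    congr 1
    ring
  rw [e]
  exact mul_le_mul_of_nonneg_right (Real.rpow_le_rpow_of_nonpos hR hl (by linarith)) (by positivity)

lemma const_le {C δ : ℝ} (hC : 2 ≤ C) (hδ : 0 < δ) (hδ1 : δ ≤ 1) {J E : ℕ} (h : J ≤ E) :
    (2 / δ) ^ J ≤ (C / δ) ^ E := by
  have h1 : 1 ≤ C / δ := by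
    rw [le_div_iff₀ hδ]
    linarith
  calc (2 / δ) ^ J ≤ (C / δ) ^ J := by gcongr
    _ ≤ (C / δ) ^ E := pow_le_pow_right₀ h1 h

lemma err_le {C : ℝ} (hC : 0 < C) {K : ℕ} {g : ℕ → ℝ} (hg : ∀ n, |g n| ≤ dv K n) {M : ℕ}
    (hM : 1 ≤ M) {Y : ℕ} {E : ℕ} (hE : 2 * K + 4 ≤ E) :
    C * (Y : ℝ) ^ (3 / 4 : ℝ) * (M * ∑ n ∈ Icc 1 M, |g n|) ^ 2 ≤
      (C + 2) * (Y : ℝ) ^ (3 / 4 : ℝ) * (M : ℝ) ^ E := by
  have hM1 : (1 : ℝ) ≤ M := by exact_mod_cast hM
  have h1 := l1_poly hg M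
  have h0 : 0 ≤ ∑ n ∈ Icc 1 M, |g n| := sum_nonneg fun _ _ => abs_nonneg _
  have h2 : (M * ∑ n ∈ Icc 1 M, |g n|) ^ 2 ≤ (M : ℝ) ^ E := by
    calc (M * ∑ n ∈ Icc 1 M, |g n|) ^ 2 ≤ (M * (M : ℝ) ^ (K + 1)) ^ 2 := by gcongr
      _ = (M : ℝ) ^ (2 * K + 4) := by ring
      _ ≤ _ := pow_le_pow_right₀ hM1 hE
  have h3 : 0 ≤ (Y : ℝ) ^ (3 / 4 : ℝ) := by positivity
  gcongr
  linarith

theorem MSP' (h1 : S_ORTH) : S_MSP := by
  classical
  intro φ hφ K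
  obtain ⟨C, hC, hO⟩ := h1 φ hφ
  refine ⟨C + 2, JJ K + 2 * K + 4, by linarith, ?_⟩
  intro g hg N0 M Y hN0 hM hY hz δ hδ hδ1
  have hex := (abs_le.1 (expand φ hC hO g M Y hY hδ)).2
  have herr := err_le hC hg hM (Y := Y) (E := JJ K + 2 * K + 4) (by omega)
  obtain ⟨hd0, hd1⟩ := dens_bounds hφ
  have hN0' : (0 : ℝ) < N0 := by exact_mod_cast hN0
  -- the main part
  have hmain : ∑ p ∈ Icc 1 M ×ˢ Icc 1 M, g p.1 * g p.2 *
        (if IsSquare (p.1 * p.2) then FF δ (Nat.sqrt (p.1 * p.2)) else 0) ≤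
      (N0 : ℝ) ^ (-δ) * ((C + 2) / δ) ^ (JJ K + 2 * K + 4) := by
    rw [fiber (fun p => g p.1 * g p.2) (FF δ) M]
    have h2 : ∀ l ∈ Icc 1 M, (∑ x ∈ ((l ^ 2).divisorsAntidiagonal).filter
        (fun x => x.1 ≤ M ∧ x.2 ≤ M), g x.1 * g x.2) * FF δ l ≤
        (N0 : ℝ) ^ (-δ) * (dv (JJ K) l * (l : ℝ) ^ (-1 - δ)) := by
      intro l hl
      rw [mem_Icc] at hl
      have hdv : 0 ≤ dv (JJ K) l := dv_nonneg (Nat.cast_nonneg _) l
      rcases lt_or_ge l N0 with h | h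
      · have h3 : ∑ x ∈ ((l ^ 2).divisorsAntidiagonal).filter
            (fun x => x.1 ≤ M ∧ x.2 ≤ M), g x.1 * g x.2 = 0 := by
          refine sum_eq_zero fun x hx => ?_
          rw [mem_filter, Nat.mem_divisorsAntidiagonal] at hx
          rcases lt_or_ge x.1 N0 with h4 | h4
          · rw [hz _ h4, zero_mul]
          · rcases lt_or_ge x.2 N0 with h5 | h5
            · rw [hz _ h5, mul_zero]
            · exfalso
              have h6 := Nat.mul_le_mul h4 h5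
              rw [hx.1.1] at h6
              have h7 : l ^ 2 < N0 ^ 2 := Nat.pow_lt_pow_left h two_ne_zero
              rw [sq N0] at h7
              omega
        rw [h3, zero_mul]
        positivity
      · have h3 := div_sum_le (K := K) (G := fun x => g x.1 * g x.2) (fun x => by
          refine (le_abs_self _).trans ?_
          rw [abs_mul]
          exact mul_le_mul (hg _) (hg _) (abs_nonneg _) (dv_nonneg (Nat.cast_nonneg K) _)) l
          (fun x => x.1 ≤ M ∧ x.2 ≤ M)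
        have h4 := FF_tail hδ hN0' (l := l) (by exact_mod_cast h)
        calc _ ≤ dv (JJ K) l * FF δ l := mul_le_mul_of_nonneg_right h3 (FF_nonneg δ l)
          _ ≤ dv (JJ K) l * ((N0 : ℝ) ^ (-δ) * (l : ℝ) ^ (-1 - δ)) :=
            mul_le_mul_of_nonneg_left h4 hdv
          _ = _ := by ring
    refine (sum_le_sum h2).trans ?_
    rw [← mul_sum]
    refine mul_le_mul_of_nonneg_left ?_ (by positivity)
    exact (dvJ_sum (JJ K) hδ hδ1 _).trans (const_le (by linarith) hδ hδ1 (by omega))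
  have hpos : 0 ≤ (N0 : ℝ) ^ (-δ) * ((C + 2) / δ) ^ (JJ K + 2 * K + 4) := by positivity
  have h5 : dens φ * Y * ∑ p ∈ Icc 1 M ×ˢ Icc 1 M, g p.1 * g p.2 *
        (if IsSquare (p.1 * p.2) then FF δ (Nat.sqrt (p.1 * p.2)) else 0) ≤
      Y * ((N0 : ℝ) ^ (-δ) * ((C + 2) / δ) ^ (JJ K + 2 * K + 4)) := by
    calc _ ≤ dens φ * Y * ((N0 : ℝ) ^ (-δ) * ((C + 2) / δ) ^ (JJ K + 2 * K + 4)) :=
        mul_le_mul_of_nonneg_left hmain (by positivity)
      _ ≤ 1 * Y * ((N0 : ℝ) ^ (-δ) * ((C + 2) / δ) ^ (JJ K + 2 * K + 4)) := by gcongr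
      _ = _ := by ring
  linarith

theorem MAIN' (h1 : S_ORTH) : S_MAIN := by
  classical
  intro φ hφ K
  obtain ⟨C, hC, hO⟩ := h1 φ hφ
  refine ⟨C + 2, JJ K + 2 * K + 4, by linarith, ?_⟩
  intro α hα N Y hN hY δ hδ hδ1
  set g : ℕ → ℝ := fun n => tr N (dA α) n with hgdef
  have hg : ∀ n, |g n| ≤ dv K n := tr_abs_le (B := dA K) fun n => dv_abs_le hα n
  have hex := expand φ hC hO g N Y hY hδ
  have herr := err_le hC hg hN (Y := Y) (E := JJ K + 2 * K + 4) (by omega)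
  obtain ⟨hd0, hd1⟩ := dens_bounds hφ
  have hN0 : (0 : ℝ) < N := by exact_mod_cast hN
  set s : ℕ → ℝ := fun l => (∑ x ∈ ((l ^ 2).divisorsAntidiagonal).filter
    (fun x => x.1 ≤ N ∧ x.2 ≤ N), dv α x.1 * dv α x.2) * FF δ l with hs
  set t : ℕ → ℝ := fun l => (∑ x ∈ (l ^ 2).divisorsAntidiagonal, dv α x.1 * dv α x.2) * FF δ l
    with ht
  have hmt : MT (2 * α) δ = ∑' l, t l := by
    unfold MT
    refine tsum_congr fun l => ?_
    rw [ht]
    dsimp only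
    have h2 := congrArg (fun A : ArithmeticFunction ℝ => A (l ^ 2)) (dA_mul α α)
    simp only [ArithmeticFunction.mul_apply, dA_apply] at h2
    rw [h2, two_mul]
    unfold FF
    split_ifs
    · ring
    · rw [mul_zero]
  have hss : ∑ p ∈ Icc 1 N ×ˢ Icc 1 N, g p.1 * g p.2 *
        (if IsSquare (p.1 * p.2) then FF δ (Nat.sqrt (p.1 * p.2)) else 0) = ∑ l ∈ Icc 1 N, s l := by
    rw [fiber (fun p => g p.1 * g p.2) (FF δ) N]
    refine sum_congr rfl fun l _ => ?_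
    rw [hs]
    dsimp only
    congr 1
    refine sum_congr rfl fun x hx => ?_
    rw [mem_filter] at hx
    rw [hgdef]
    dsimp only
    rw [tr_apply, tr_apply, if_pos hx.2.1, if_pos hx.2.2, dA_apply, dA_apply]
  -- pointwise bounds
  have hGabs : ∀ x : ℕ × ℕ, |dv α x.1 * dv α x.2| ≤ dv K x.1 * dv K x.2 := by
    intro x
    rw [abs_mul]
    exact mul_le_mul (dv_abs_le hα _) (dv_abs_le hα _) (abs_nonneg _)
      (dv_nonneg (Nat.cast_nonneg K) _)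
  have hdiff : ∀ l, |t l - s l| ≤ (N : ℝ) ^ (-(δ / 2)) * (dv (JJ K) l * (l : ℝ) ^ (-1 - δ)) := by
    intro l
    have e1 : t l - s l = (∑ x ∈ ((l ^ 2).divisorsAntidiagonal).filter
        (fun x => ¬ (x.1 ≤ N ∧ x.2 ≤ N)), dv α x.1 * dv α x.2) * FF δ l := by
      rw [ht, hs]
      dsimp only
      rw [← sum_filter_add_sum_filter_not ((l ^ 2).divisorsAntidiagonal)
        (fun x => x.1 ≤ N ∧ x.2 ≤ N)]
      ring
    have hdv : 0 ≤ dv (JJ K) l := dv_nonneg (Nat.cast_nonneg _) l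
    rw [e1, abs_mul, abs_of_nonneg (FF_nonneg δ l)]
    rcases le_or_gt (l ^ 2) N with h | h
    · have h3 : ∑ x ∈ ((l ^ 2).divisorsAntidiagonal).filter
          (fun x => ¬ (x.1 ≤ N ∧ x.2 ≤ N)), dv α x.1 * dv α x.2 = 0 := by
        refine sum_eq_zero fun x hx => ?_
        rw [mem_filter] at hx
        exfalso
        refine hx.2 ?_
        have h4 := Nat.mem_divisorsAntidiagonal.1 hx.1
        have h5 : 0 < l ^ 2 := Nat.pos_of_ne_zero h4.2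
        have h6 := Nat.le_of_dvd h5 ⟨x.2, h4.1.symm⟩
        have h7 := Nat.le_of_dvd h5 ⟨x.1, by rw [mul_comm]; exact h4.1.symm⟩
        omega
      rw [h3, abs_zero, zero_mul]
      positivity
    · have h3 := (abs_sum_le_sum_abs (fun x : ℕ × ℕ => dv α x.1 * dv α x.2)
        (((l ^ 2).divisorsAntidiagonal).filter (fun x => ¬ (x.1 ≤ N ∧ x.2 ≤ N)))).trans
        (div_sum_le (K := K) (G := fun x => |dv α x.1 * dv α x.2|) hGabs l
          (fun x => ¬ (x.1 ≤ N ∧ x.2 ≤ N)))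
      have hR : Real.sqrt N ≤ l := by
        rw [Real.sqrt_le_left (Nat.cast_nonneg l)]
        exact_mod_cast h.le
      have h4 := FF_tail hδ (Real.sqrt_pos.2 hN0) hR
      have e2 : Real.sqrt N ^ (-δ) = (N : ℝ) ^ (-(δ / 2)) := by
        rw [Real.sqrt_eq_rpow, ← Real.rpow_mul hN0.le]
        congr 1
        ring
      rw [e2] at h4
      calc _ ≤ dv (JJ K) l * FF δ l := mul_le_mul_of_nonneg_right h3 (FF_nonneg δ l)
        _ ≤ dv (JJ K) l * ((N : ℝ) ^ (-(δ / 2)) * (l : ℝ) ^ (-1 - δ)) :=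
          mul_le_mul_of_nonneg_left h4 hdv
        _ = _ := by ring
  have hsum0 : Summable fun l : ℕ => (N : ℝ) ^ (-(δ / 2)) * (dv (JJ K) l * (l : ℝ) ^ (-1 - δ)) :=
    (dvJ_summable (JJ K) hδ).mul_left _
  have hsd : Summable fun l => t l - s l :=
    Summable.of_norm_bounded hsum0 fun l => hdiff l
  have hszero : ∀ l, l ∉ Icc 1 N → s l = 0 := by
    intro l hl
    rw [hs]
    dsimp only
    rw [sum_eq_zero, zero_mul]
    intro x hx
    exfalso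
    rw [mem_filter, Nat.mem_divisorsAntidiagonal] at hx
    refine hl (mem_Icc.2 ⟨?_, ?_⟩)
    · rcases Nat.eq_zero_or_pos l with h | h
      · exact absurd (by rw [h]; rfl) hx.1.2
      · exact h
    · have h2 := Nat.mul_le_mul hx.2.1 hx.2.2
      rw [hx.1.1, ← sq] at h2
      exact (Nat.pow_le_pow_iff_left two_ne_zero).1 h2
  have hssum : HasSum s (∑ l ∈ Icc 1 N, s l) := hasSum_sum_of_ne_finset_zero hszero
  have hkey : |∑ l ∈ Icc 1 N, s l - MT (2 * α) δ| ≤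
      (N : ℝ) ^ (-(δ / 2)) * ((C + 2) / δ) ^ (JJ K + 2 * K + 4) := by
    have h2 : MT (2 * α) δ - ∑ l ∈ Icc 1 N, s l = ∑' l, (t l - s l) := by
      have h3 := (hsd.hasSum.add hssum).tsum_eq
      have h4 : (fun l => t l - s l + s l) = t := by
        funext l
        ring
      rw [h4] at h3
      rw [hmt, h3]
      ring
    rw [abs_sub_comm, h2]
    have h3 : |∑' l, (t l - s l)| ≤ ∑' l : ℕ, (N : ℝ) ^ (-(δ / 2)) *
        (dv (JJ K) l * (l : ℝ) ^ (-1 - δ)) := by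
      have h5 := tsum_of_norm_bounded hsum0.hasSum (fun l => by
        rw [Real.norm_eq_abs]
        exact hdiff l)
      rwa [Real.norm_eq_abs] at h5
    refine h3.trans ?_
    rw [tsum_mul_left]
    refine mul_le_mul_of_nonneg_left ?_ (by positivity)
    refine (dvJ_summable (JJ K) hδ).tsum_le_of_sum_le fun F => ?_
    exact (dvJ_sum (JJ K) hδ hδ1 F).trans (const_le (by linarith) hδ hδ1 (by omega))
  rw [hss] at hex
  have hpos : 0 ≤ (N : ℝ) ^ (-(δ / 2)) * ((C + 2) / δ) ^ (JJ K + 2 * K + 4) := by positivity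
  have h6 : |dens φ * Y * ∑ l ∈ Icc 1 N, s l - dens φ * Y * MT (2 * α) δ| ≤
      Y * ((N : ℝ) ^ (-(δ / 2)) * ((C + 2) / δ) ^ (JJ K + 2 * K + 4)) := by
    rw [← mul_sub, abs_mul, abs_of_nonneg (by positivity : (0:ℝ) ≤ dens φ * Y)]
    calc _ ≤ dens φ * Y * ((N : ℝ) ^ (-(δ / 2)) * ((C + 2) / δ) ^ (JJ K + 2 * K + 4)) :=
        mul_le_mul_of_nonneg_left hkey (by positivity)
      _ ≤ 1 * Y * ((N : ℝ) ^ (-(δ / 2)) * ((C + 2) / δ) ^ (JJ K + 2 * K + 4)) := by gcongr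
      _ = _ := by ring
  have h7 := abs_add_le (∑ d ∈ Om φ Y, Qo φ g N δ d ^ 2 - dens φ * Y * ∑ l ∈ Icc 1 N, s l)
    (dens φ * Y * ∑ l ∈ Icc 1 N, s l - dens φ * Y * MT (2 * α) δ)
  rw [sub_add_sub_cancel] at h7
  linarith

theorem MSP (h1 : S_ORTH) (_h2 : S_MTB) : S_MSP := MSP' h1

theorem MAIN (h1 : S_ORTH) (_h2 : S_MTB) : S_MAIN := MAIN' h1

end

end Pool.Agent.Y960.TQ
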